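import Pool.Agent.Helper67.TQ.Thm
import Pool.Agent.Helper9.TP.KCB

/-!
# Covers of projective spaces branched along three quadrics
-/

set_option autoImplicit false

namespace Pool.Agent.Results.MP_e93a6a_ag.ThreeQuadrics

open MvPolynomial Pool.Agent.Helper9.KC

/-- The quadratic form `x^T A x` of a matrix `A`. -/
noncomputable def quad {k : Type} [Field k] {N : ℕ} (A : Matrix (Fin N) (Fin N) k) :
    MvPolynomial (Fin N) k :=
  ∑ a, ∑ b, C (A a b) * X a * X b

/-- The matrix `X_0 A_0 + X_1 A_1 + X_2 A_2` over `k[X_0, X_1, X_2]`. -/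
noncomputable def net {k : Type} [Field k] {N : ℕ} (A : Fin 3 → Matrix (Fin N) (Fin N) k) :
    Matrix (Fin N) (Fin N) (MvPolynomial (Fin 3) k) :=
  fun a b => ∑ l, C (A l a b) * X l

/-- Let `k` be a finite field of characteristic `p > 2`, let `s, t > 0` be integers, and let
`A_0, A_1, A_2` be symmetric matrices of odd size `N = 2 m + 1` over `k` such that the determinant
of `X_0 A_0 + X_1 A_1 + X_2 A_2` is not zero, with the quadratic forms `Q_i = x^T A_i x` in
`x_1, ..., x_N`. Let `Φ = Φ_1(u_1, v_1) + ... + Φ_l(u_l, v_l)` be a sum of binary forms of positive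
degrees `n_j` over `k`. Let `P` be a Kummer class. Then `P` contains the ring
`k[x_1, ..., x_N, u_1, v_1, ..., u_l, v_l] / (Q_1 ^ (s + t) Φ - Q_0 ^ s Q_2 ^ t)`. -/
theorem result (p : ℕ) (hp : p.Prime) (hp2 : p ≠ 2) (P : ∀ (A : Type) [CommRing A], Prop)
    (hP : KummerClass p P) (k : Type) [Field k] [Finite k] [CharP k p] (m s t : ℕ) (hs : 0 < s)
    (ht : 0 < t) (A : Fin 3 → Matrix (Fin (2 * m + 1)) (Fin (2 * m + 1)) k)
    (hA : ∀ i, (A i).IsSymm) (hd : (net A).det ≠ 0) (l : ℕ) (n : Fin l → ℕ) (hn : ∀ j, 0 < n j)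
    (Φ : Fin l → MvPolynomial (Fin 2) k) (hΦ : ∀ j, (Φ j).IsHomogeneous (n j)) :
    P (MvPolynomial (Fin l × Fin 2) (MvPolynomial (Fin (2 * m + 1)) k) ⧸
      Ideal.span {C (quad (A 1) ^ (s + t)) * map C (∑ j, rename (Prod.mk j) (Φ j)) -
        C (quad (A 0) ^ s * quad (A 2) ^ t)}) := by
  have hq : ∀ i, quad (A i) = Pool.Agent.Helper67.TQ.qp (A i) := fun i =>
    Finset.sum_congr rfl fun a _ => Finset.sum_congr rfl fun b _ => mul_assoc _ _ _
  rw [hq, hq, hq]
  exact Pool.Agent.Helper67.TQ.three_quadrics hp hp2 hP.old hs ht A hA hd Φ hn hΦ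

end Pool.Agent.Results.MP_e93a6a_ag.ThreeQuadrics
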